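import Mathlib

namespace Pool.Agent.H23.AffT

variable {F : Type*} [Field F] [Finite F]

/-- `φ` negates when `φ 0 = 0`. -/
theorem neg_of (φ : F → F) (h1 : Function.Injective φ) (h2 : Function.Injective fun x => x - φ x)
    (h : ∀ x a, (φ x - φ a) ^ 2 = (x - a) * (φ (a + φ x - φ a) - φ a)) (h0 : φ 0 = 0) (u : F) :
    φ (-u) = - φ u := by
  classical
  by_cases hu : u = 0
  · simp [hu, h0]
  obtain ⟨D, hD⟩ : ∃ D, φ u = D * u := ⟨φ u / u, by field_simp⟩
  have hD0 : D ≠ 0 := by
    rintro rfl
    apply hu; apply h1; rw [hD, h0, zero_mul]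
  have hD1 : 1 - D ≠ 0 := by
    intro hh
    have : D = 1 := by linear_combination -hh
    subst this
    apply hu; apply h2
    simp only
    rw [hD, h0]; ring
  let V : Set F := {v | φ v = D * v}
  have h0V : (0 : F) ∈ V := by simp [V, h0]
  have huV : u ∈ V := hD
  have hcl : ∀ x ∈ V, ∀ y ∈ V, D * x + (1 - D) * y ∈ V := by
    intro x hx y hy
    by_cases hxy : x = y
    · subst hxy
      have : D * x + (1 - D) * x = x := by ring
      rwa [this]
    have hx' : φ x = D * x := hx
    have hy' : φ y = D * y := hy
    have e := h x y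
    rw [hx', hy'] at e
    have hne : x - y ≠ 0 := sub_ne_zero.2 hxy
    have e2 : D ^ 2 * (x - y) = φ (y + D * x - D * y) - D * y := by
      apply mul_left_cancel₀ hne
      rw [← e]; ring
    have e3 : y + D * x - D * y = D * x + (1 - D) * y := by ring
    rw [e3] at e2
    change φ _ = D * _
    linear_combination -e2
  have sD : ∀ y ∈ V, ∃ x ∈ V, D * x = y := by
    intro y hy
    let g : V → V := fun x => ⟨D * x.1, by have := hcl x.1 x.2 0 h0V; simpa using this⟩
    have gi : Function.Injective g := by
      intro a b hab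
      have : D * a.1 = D * b.1 := congrArg Subtype.val hab
      exact Subtype.ext (mul_left_cancel₀ hD0 this)
    obtain ⟨x, hx⟩ := Finite.surjective_of_injective gi ⟨y, hy⟩
    exact ⟨x.1, x.2, congrArg Subtype.val hx⟩
  have s1D : ∀ y ∈ V, ∃ x ∈ V, (1 - D) * x = y := by
    intro y hy
    let g : V → V := fun x => ⟨(1 - D) * x.1, by have := hcl 0 h0V x.1 x.2; simpa using this⟩
    have gi : Function.Injective g := by
      intro a b hab
      have : (1 - D) * a.1 = (1 - D) * b.1 := congrArg Subtype.val hab
      exact Subtype.ext (mul_left_cancel₀ hD1 this)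
    obtain ⟨x, hx⟩ := Finite.surjective_of_injective gi ⟨y, hy⟩
    exact ⟨x.1, x.2, congrArg Subtype.val hx⟩
  have hadd : ∀ x ∈ V, ∀ y ∈ V, x + y ∈ V := by
    intro x hx y hy
    obtain ⟨x', hx', rfl⟩ := sD x hx
    obtain ⟨y', hy', rfl⟩ := s1D y hy
    exact hcl x' hx' y' hy'
  have hmul : ∀ n : ℕ, (n : F) * u ∈ V := by
    intro n
    induction n with
    | zero => simpa using h0V
    | succ n ih =>
      have := hadd _ ih _ huV
      have e : ((n + 1 : ℕ) : F) * u = (n : F) * u + u := by push_cast; ring
      rw [e]; exact this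
  obtain ⟨n, hn⟩ : ∃ n : ℕ, (n : F) = -1 := by
    obtain ⟨p, hp⟩ := CharP.exists F
    have hp0 : p ≠ 0 := by
      rintro rfl
      have : CharZero F := CharP.charP_to_charZero F
      exact not_finite F
    refine ⟨p - 1, ?_⟩
    rw [Nat.cast_sub (Nat.one_le_iff_ne_zero.2 hp0), CharP.cast_eq_zero]; simp
  have := hmul n
  rw [hn] at this
  have e : φ (-1 * u) = D * (-1 * u) := this
  rw [hD]
  have e2 : (-1 : F) * u = -u := by ring
  rw [e2] at e; rw [e]; ring

/-- the key: `φ` is additive when `φ 0 = 0`. -/
theorem add_of (φ : F → F) (h1 : Function.Injective φ) (h2 : Function.Injective fun x => x - φ x)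
    (h : ∀ x a, (φ x - φ a) ^ 2 = (x - a) * (φ (a + φ x - φ a) - φ a)) (h0 : φ 0 = 0) (x y : F) :
    φ (x + y) = φ x + φ y := by
  have hneg : ∀ a u, φ (a + u) + φ (a - u) = 2 * φ a := by
    intro a u
    have := neg_of (fun x => φ (a + x) - φ a) (fun x y hxy => by
        have : φ (a + x) = φ (a + y) := by
          have e : φ (a + x) - φ a = φ (a + y) - φ a := hxy
          linear_combination e
        exact add_left_cancel (h1 this)) (fun x y hxy => by
        have e : x - (φ (a + x) - φ a) = y - (φ (a + y) - φ a) := hxy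
        have e2 : (a + x) - φ (a + x) = (a + y) - φ (a + y) := by linear_combination e
        exact add_left_cancel (h2 e2)) (fun x b => by
        have e := h (a + x) (a + b)
        have e3 : a + (b + (φ (a + x) - φ a) - (φ (a + b) - φ a)) = a + b + φ (a + x) - φ (a + b) := by ring
        rw [e3]
        linear_combination e) (by simp) u
    have e : a + -u = a - u := by ring
    rw [e] at this
    linear_combination this
  by_cases h20 : (2 : F) = 0
  · -- characteristic two
    have c2 : ∀ z : F, z + z = 0 := fun z => by linear_combination z * h20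
    have bij : Function.Bijective φ := ⟨h1, Finite.surjective_of_injective h1⟩
    have bij2 : Function.Surjective fun x => x - φ x := Finite.surjective_of_injective h2
    obtain ⟨ρ, hρ1, hρ2⟩ := Function.bijective_iff_has_inverse.1 bij
    have rρ : ∀ z, φ (ρ z) = z := hρ2
    have lρ : ∀ z, ρ (φ z) = z := hρ1
    have r0 : ρ 0 = 0 := by rw [← h0, lρ, h0]
    have hsq : ∀ z, φ z * ρ z = z ^ 2 := by
      intro z
      have e := h (ρ z) 0
      rw [rρ, h0] at e
      simp only [sub_zero, zero_add] at e
      rw [e]; ring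
    have radd : ∀ z c, ρ (z + c) = ρ z + ρ c := by
      intro z c
      by_cases hc : c = 0
      · subst hc; simp [r0]
      obtain ⟨a, ha⟩ := bij2 c
      simp only at ha
      have hb0 : φ a ≠ 0 := by
        intro hh
        have : a = 0 := h1 (by rw [hh, h0])
        apply hc; rw [← ha, hh, this]; ring
      have hab : a + φ a = c := by linear_combination ha + φ a * h20
      have e1 : ∀ z, (z + φ a) ^ 2 * ρ (z + c) = (ρ z + a) * ((z + c) ^ 2 + φ a * ρ (z + c)) := by
        intro z
        have e := h (ρ z) a
        rw [rρ] at e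
        have e3 : a + z - φ a = z + c := by rw [← hab]; linear_combination (- φ a) * h20
        rw [e3] at e
        have e4 := hsq (z + c)
        have e5 : (z + φ a) ^ 2 = (ρ z + a) * (φ (z + c) + φ a) := by
          linear_combination e + (2 * z * φ a) * h20 - (a * φ a + a * φ (z + c)+ ρ z * φ a) * h20 + (a * φ (z+c)) * h20 - (a * φ (z + c) - a * φ a) * h20
        rw [e5]
        linear_combination (ρ z + a) * e4
      have key : ∀ z, φ a * (ρ (z + c) + ρ z) = a * c := by
        intro z
        have E1 := e1 z
        have E2 := e1 (z + c)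
        have e6 : z + c + c = z := by linear_combination c * h20
        rw [e6] at E2
        apply mul_left_cancel₀ hc
        generalize ρ (z + c) = R' at *
        generalize ρ z = R at *
        generalize φ a = b at *
        subst hab
        linear_combination E1 + E2 + (a * b * (R + R') - z * b * R' + a * z ^ 2 + z * (a + b) * a + b * R * R' - z * b * R - b * (a + b) * R) * h20
      have k1 := key z
      have k0 := key 0
      rw [zero_add, r0] at k0
      apply mul_left_cancel₀ hb0
      linear_combination k1 - k0 - φ a * ρ z * h20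
    have e := radd (φ x) (φ y)
    rw [lρ, lρ] at e
    rw [← e, rρ]
  · have e1 := hneg ((x + y) / 2) ((x - y) / 2)
    have e2 := hneg ((x + y) / 2) ((x + y) / 2)
    have f1 : (x + y) / 2 + (x - y) / 2 = x := by field_simp; ring
    have f2 : (x + y) / 2 - (x - y) / 2 = y := by field_simp; ring
    have f3 : (x + y) / 2 + (x + y) / 2 = x + y := by field_simp; ring
    rw [f1, f2] at e1
    rw [f3, sub_self, h0] at e2
    linear_combination e2 - e1

theorem affine_of_eq (φ : F → F) (h1 : Function.Injective φ) (h2 : Function.Injective fun x => x - φ x)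
    (h : ∀ x a, (φ x - φ a) ^ 2 = (x - a) * (φ (a + φ x - φ a) - φ a)) : ∃ D, ∀ x, φ x = φ 0 + D * x := by
  have a1 : Function.Injective (fun x => φ x - φ 0) := fun x y hxy => h1 (by
    have e : φ x - φ 0 = φ y - φ 0 := hxy
    linear_combination e)
  have a2 : Function.Injective (fun x => x - (φ x - φ 0)) := fun x y hxy => h2 (by
    have e : x - (φ x - φ 0) = y - (φ y - φ 0) := hxy
    change x - φ x = y - φ y
    linear_combination e)
  have a3 : ∀ x a, ((φ x - φ 0) - (φ a - φ 0)) ^ 2
      = (x - a) * ((φ (a + (φ x - φ 0) - (φ a - φ 0)) - φ 0) - (φ a - φ 0)) := by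
    intro x a
    have e : a + (φ x - φ 0) - (φ a - φ 0) = a + φ x - φ a := by ring
    rw [e]
    linear_combination h x a
  refine ⟨φ 1 - φ 0, fun x => ?_⟩
  let ψ : F → F := fun x => φ x - φ 0
  have hadd : ∀ x y, ψ (x + y) = ψ x + ψ y := add_of ψ a1 a2 a3 (sub_self _)
  have hsq : ∀ x, x * ψ (ψ x) = (ψ x) ^ 2 := by
    intro x
    have e := a3 x 0
    simp only [sub_self, sub_zero, zero_add] at e
    exact e.symm
  have hp := hsq (x + 1)
  have p1 := hsq 1
  have px := hsq x
  rw [hadd, hadd] at hp
  have k : (ψ x - x * ψ 1) ^ 2 = 0 := by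
    linear_combination x * hp - (x + 1) * px - (x ^ 2 + x) * p1
  have k2 : ψ x - x * ψ 1 = 0 := pow_eq_zero_iff (two_ne_zero) |>.1 k
  have : φ x - φ 0 = x * (φ 1 - φ 0) := sub_eq_zero.1 k2
  linear_combination this

end Pool.Agent.H23.AffT
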