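import Pool.Agent.H36.MHDDefs

/-! # MP_59296a_an: `ball3` is an admissible domain (bounded, simply connected, smooth boundary) -/

open MeasureTheory Set Filter Topology
open scoped ContDiff ENNReal
open H36.MHD

noncomputable section

namespace H37.MHD

/-- the defining function of the unit sphere -/
def sq (x : V3) : ℝ := x 0 ^ 2 + x 1 ^ 2 + x 2 ^ 2

theorem contDiff_sq : ContDiff ℝ ∞ sq := by
  unfold sq
  fun_prop

theorem continuous_sq : Continuous sq := contDiff_sq.continuous

theorem ball3_eq : ball3 = {x | sq x < 1} := rfl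

theorem isOpen_ball3 : IsOpen ball3 := isOpen_lt continuous_sq continuous_const

theorem zero_mem_ball3 : (0 : V3) ∈ ball3 := by simp [ball3]

theorem measurableSet_ball3 : MeasurableSet ball3 := isOpen_ball3.measurableSet

theorem abs_lt_one_of_mem_ball3 {x : V3} (hx : x ∈ ball3) (i : Fin 3) : |x i| < 1 := by
  have h : x 0 ^ 2 + x 1 ^ 2 + x 2 ^ 2 < 1 := hx
  rw [abs_lt]
  fin_cases i <;> constructor <;> simp <;> nlinarith [sq_nonneg (x 0), sq_nonneg (x 1), sq_nonneg (x 2)]

theorem ball3_subset_Icc : ball3 ⊆ Icc (-1 : V3) 1 := by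
  intro x hx
  constructor <;> intro i
  · have := (abs_lt.1 (abs_lt_one_of_mem_ball3 hx i)).1
    simpa using this.le
  · exact (abs_lt.1 (abs_lt_one_of_mem_ball3 hx i)).2.le

theorem isBounded_ball3 : Bornology.IsBounded ball3 :=
  (Metric.isBounded_Icc (-1 : V3) 1).subset ball3_subset_Icc

theorem volume_ball3_lt_top : volume ball3 < ⊤ :=
  isBounded_ball3.measure_lt_top

theorem convexOn_sq : ConvexOn ℝ univ sq := by
  have h : ∀ i : Fin 3, ConvexOn ℝ univ (fun x : V3 => x i ^ 2) := by
    intro i
    exact (even_two.convexOn_pow (𝕜 := ℝ)).comp_linearMap (LinearMap.proj i : V3 →ₗ[ℝ] ℝ)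
  exact ((h 0).add (h 1)).add (h 2)

theorem convex_ball3 : Convex ℝ ball3 := by
  have := convexOn_sq.convex_lt 1
  simpa [ball3, sq] using this

/-- `ball3` is simply connected. -/
theorem simplyConnected_ball3 : SimplyConnectedSpace ball3 := by
  have : ContractibleSpace ball3 := convex_ball3.contractibleSpace ⟨0, zero_mem_ball3⟩
  infer_instance

/-- The boundary is the unit sphere. -/
theorem frontier_ball3 : frontier ball3 = {x | sq x = 1} := by
  apply Subset.antisymm
  · exact frontier_lt_subset_eq continuous_sq continuous_const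
  · intro x hx
    have hx : sq x = 1 := hx
    rw [isOpen_ball3.frontier_eq]
    constructor
    · have h1 : Tendsto (fun n : ℕ => (1 - 1 / ((n : ℝ) + 1)) • x) atTop (𝓝 ((1 - 0 : ℝ) • x)) := by
        apply Tendsto.smul_const
        exact tendsto_const_nhds.sub tendsto_one_div_add_atTop_nhds_zero_nat
      rw [sub_zero, one_smul] at h1
      apply mem_closure_of_tendsto h1
      apply Eventually.of_forall
      intro n
      show sq _ < 1
      have h2 : sq ((1 - 1 / ((n : ℝ) + 1)) • x) = (1 - 1 / ((n : ℝ) + 1)) ^ 2 * sq x := by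
        simp [sq]; ring
      rw [h2, hx, mul_one]
      have h3 : 0 < 1 / ((n : ℝ) + 1) := by positivity
      have h4 : 1 / ((n : ℝ) + 1) ≤ 1 := by
        rw [div_le_one (by positivity)]; linarith [n.cast_nonneg (α := ℝ)]
      nlinarith
    · intro h
      have : sq x < 1 := h
      linarith

/-- The defining function has nonzero differential on the boundary (so the boundary is a smooth
surface, and `ball3` lies on one side of it). -/
theorem fderiv_sq_ne_zero {x : V3} (hx : sq x = 1) : fderiv ℝ sq x ≠ 0 := by
  intro h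
  have h1 : HasDerivAt (fun t : ℝ => sq (x + t • x)) 0 0 := by
    have h2 : HasFDerivAt sq (fderiv ℝ sq x) ((fun t : ℝ => x + t • x) 0) := by
      simp only [zero_smul, add_zero]
      exact (contDiff_sq.differentiable (by simp)).differentiableAt.hasFDerivAt
    have h3 : HasDerivAt (fun t : ℝ => x + t • x) x 0 := by
      simpa using ((hasDerivAt_id (0 : ℝ)).smul_const x).const_add x
    have := h2.comp_hasDerivAt (0 : ℝ) h3
    rw [h] at this
    exact this
  have h4 : (fun t : ℝ => sq (x + t • x)) = fun t => (1 + t) ^ 2 := by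
    funext t
    have : sq (x + t • x) = (1 + t) ^ 2 * sq x := by simp [sq]; ring
    rw [this, hx, mul_one]
  rw [h4] at h1
  have h5 : HasDerivAt (fun t : ℝ => (1 + t) ^ 2) 2 0 := by
    have h6 := ((hasDerivAt_id (0 : ℝ)).const_add 1).pow 2
    have h7 : HasDerivAt (fun t : ℝ => (1 + t) ^ 2) (↑2 * (1 + id 0) ^ (2 - 1) * 1) 0 := h6
    simpa using h7
  have := h1.unique h5
  norm_num at this

end H37.MHD
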