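import Pool.Agent.H37.MHD.Defs2

/-! # MP_59296a_an, module M9b: small facts about stages -/

open MeasureTheory Set Filter Topology
open scoped ContDiff
open H36.MHD

noncomputable section

namespace H37.MHD

variable {B : Bg}

/-- initial density of a stage -/
theorem Stage.dens_zero (st : Stage B) (i : Fin 2) (x : V3) : st.dens i (0, x) = st.rho x := by
  have hT := B.hT
  obtain ⟨β, -, h1, h2⟩ := st.path i 0 x (by rw [abs_zero]; positivity)
  have h3 := h2 1 (by simp)
  have h4 : vec (st.Y i) (0, x) = x := by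
    rw [← h1, h3]
    simp
  rw [Stage.dens, h4]

/-- `SS` vanishes at time `0`. -/
theorem SS_time_zero (B : Bg) (x : V3) : SS B (0, x) = 0 := by
  simp [SS, th]

/-- the velocity vanishes at time `0` and outside the ball -/
theorem Stage.u_zero (st : Stage B) (i : Fin 2) (k : Fin 3) (x : V3) : st.u i k (0, x) = 0 := by
  have h := st.base (0, x) (by rw [SS_time_zero]; exact pow_pos st.s_pos 2) i k
  rw [h.1]
  simp [aa]

theorem Stage.u_supp (st : Stage B) (i : Fin 2) (k : Fin 3) (z : X) (hz : B.r < ‖z.2 - B.x0‖) :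
    st.u i k z = 0 ∧ st.f k z = 0 ∧ st.p i z = 0 := by
  have hw : ∀ k, B.w k z.2 = 0 := by
    intro k
    by_contra h
    exact absurd (B.w_supp k z.2 h) (not_le.2 hz)
  have hS : SS B z = 0 := by simp [SS, hw]
  have h := st.base z (by rw [hS]; exact pow_pos st.s_pos 2) i k
  refine ⟨?_, h.2⟩
  rw [h.1, hw]
  simp

/-- the two velocities differ -/
theorem Stage.u_ne (st : Stage B) (t : ℝ) (ht : 0 < t) (htT : t ≤ B.T) (x : V3) :
    t ^ 3 * ‖wv B x‖ ≤ ‖vec (st.u 0) (t, x) - vec (st.u 1) (t, x)‖ := by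
  obtain ⟨c, hc0, hc1, hc⟩ := st.close
  have hT := B.hT
  have habs : |t| ≤ 2 * B.T := by rw [abs_of_pos ht]; linarith
  have h0 := hc 0 (t, x) habs
  have h1 := hc 1 (t, x) habs
  simp only [sg, if_true, one_mul, Fin.isValue, one_ne_zero, if_false] at h0 h1
  set W := wv B x
  set a := vec (st.u 0) (t, x)
  set b := vec (st.u 1) (t, x)
  have hcT : c * th t ≤ t ^ 3 / 16 := by
    have h2 : c ≤ 1 / (4 * B.T) := hc1.le
    have h3 : c * th t ≤ 1 / (4 * B.T) * th t :=
      mul_le_mul_of_nonneg_right h2 (by unfold th; positivity)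
    have h4 : 1 / (4 * B.T) * th t ≤ t ^ 3 / 16 := by
      unfold th
      rw [div_mul_div_comm, div_le_div_iff₀ (by positivity) (by norm_num)]
      have : t ^ 4 ≤ t ^ 3 * B.T := by
        have : t ^ 4 = t ^ 3 * t := by ring
        rw [this]
        exact mul_le_mul_of_nonneg_left htT (by positivity)
      nlinarith
    exact h3.trans h4
  have hW : 0 ≤ ‖W‖ := norm_nonneg _
  have h5 : ‖(2 * aa t) • W‖ = 2 * t ^ 3 * ‖W‖ := by
    rw [norm_smul, aa, Real.norm_of_nonneg (by positivity)]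
  have h6 : (2 * aa t) • W = (a - b) - (a - aa t • W) + (b - (-1 * aa t) • W) := by
    module
  have h7 : ‖(2 * aa t) • W‖ ≤ ‖a - b‖ + ‖a - aa t • W‖ + ‖b - (-1 * aa t) • W‖ := by
    rw [h6]
    exact (norm_add_le _ _).trans (add_le_add_left (norm_sub_le _ _) _)
  have h8 : c * th t * ‖W‖ ≤ t ^ 3 / 16 * ‖W‖ := mul_le_mul_of_nonneg_right hcT hW
  have h9 : 0 ≤ t ^ 3 * ‖W‖ := by positivity
  rw [h5] at h7
  linarith [h0, h1, h8, h9, h7]

/-- the transport equation of the density of a stage -/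
theorem Stage.dens_trans (st : Stage B) (i : Fin 2) (z : X) (hz : |z.1| < 3 / 2 * B.T) :
    dt (st.dens i) z + ∑ k, st.u i k z * dx k (st.dens i) z = 0 := by
  -- derivative of `vec Y`
  have hY : ∀ k, DifferentiableAt ℝ (st.Y i k) z := fun k =>
    ((st.Y_smooth i k).differentiable (by simp)) z
  have hv : HasFDerivAt (vec (st.Y i)) (ContinuousLinearMap.pi fun k => fderiv ℝ (st.Y i k) z) z :=
    hasFDerivAt_pi.2 fun k => (hY k).hasFDerivAt
  have hr : HasFDerivAt st.rho (fderiv ℝ st.rho (vec (st.Y i) z)) (vec (st.Y i) z) :=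
    ((st.rho_smooth.differentiable (by simp)) _).hasFDerivAt
  have hd : fderiv ℝ (st.dens i) z
      = (fderiv ℝ st.rho (vec (st.Y i) z)).comp
        (ContinuousLinearMap.pi fun k => fderiv ℝ (st.Y i k) z) :=
    (hr.comp z hv).fderiv
  have hlin : ∀ v : V3, fderiv ℝ st.rho (vec (st.Y i) z) v
      = ∑ j, v j * fderiv ℝ st.rho (vec (st.Y i) z) (Pi.single j 1) := by
    intro v
    conv_lhs => rw [pi_eq_sum_univ' v]
    rw [map_sum]
    apply Finset.sum_congr rfl
    intro j _
    rw [map_smul, smul_eq_mul]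
  have e1 : ∀ h : X, fderiv ℝ (st.dens i) z h
      = ∑ j, fderiv ℝ (st.Y i j) z h * fderiv ℝ st.rho (vec (st.Y i) z) (Pi.single j 1) := by
    intro h
    rw [hd, ContinuousLinearMap.comp_apply, hlin]
    rfl
  unfold dt dx
  simp only [e1]
  have e2 : ∀ j, fderiv ℝ (st.Y i j) z (1, 0)
      + ∑ k, st.u i k z * fderiv ℝ (st.Y i j) z (0, Pi.single k 1) = 0 := fun j => st.trans i j z hz
  calc ∑ j, fderiv ℝ (st.Y i j) z (1, 0) * fderiv ℝ st.rho (vec (st.Y i) z) (Pi.single j 1)
        + ∑ k, st.u i k z * ∑ j, fderiv ℝ (st.Y i j) z (0, Pi.single k 1)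
          * fderiv ℝ st.rho (vec (st.Y i) z) (Pi.single j 1)
      = ∑ j, (fderiv ℝ (st.Y i j) z (1, 0)
          + ∑ k, st.u i k z * fderiv ℝ (st.Y i j) z (0, Pi.single k 1))
          * fderiv ℝ st.rho (vec (st.Y i) z) (Pi.single j 1) := by
        simp only [add_mul, Finset.sum_add_distrib, Finset.mul_sum, Finset.sum_mul]
        congr 1
        rw [Finset.sum_comm]
        apply Finset.sum_congr rfl
        intro j _
        apply Finset.sum_congr rfl
        intro k _
        ring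
    _ = 0 := by simp [e2]

end H37.MHD
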